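import Pool.Agent.Helper97.FS.Stmts

set_option autoImplicit false

namespace Pool.Agent.Helper97.FS

open Finset MeasureTheory Filter Topology
open scoped ComplexConjugate
open Pool.Agent.Helper97.Sub

/-- Haar measure of the circle -/
noncomputable abbrev ker_H : Measure (AddCircle (1 : ℝ)) := AddCircle.haarAddCircle

/-- smoothed indicator function -/
noncomputable def ker_V (f : AddCircle (1 : ℝ) → ℝ) (O : Set (AddCircle (1 : ℝ)))
    (ω : AddCircle (1 : ℝ)) : ℝ := ∫ s in O, f (ω - s) ∂ker_H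

theorem ker_int {f : AddCircle (1 : ℝ) → ℝ} (hf : Continuous f) (μ : Measure (AddCircle (1 : ℝ)))
    [IsFiniteMeasure μ] : Integrable f μ :=
  hf.integrable_of_hasCompactSupport (HasCompactSupport.of_compactSpace f)

theorem ker_intC {f : AddCircle (1 : ℝ) → ℂ} (hf : Continuous f) (μ : Measure (AddCircle (1 : ℝ)))
    [IsFiniteMeasure μ] : Integrable f μ :=
  hf.integrable_of_hasCompactSupport (HasCompactSupport.of_compactSpace f)

theorem ker_V_nonneg {f : AddCircle (1 : ℝ) → ℝ} (hf0 : ∀ ω, 0 ≤ f ω)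
    (O : Set (AddCircle (1 : ℝ))) (ω : AddCircle (1 : ℝ)) : 0 ≤ ker_V f O ω :=
  integral_nonneg fun s => hf0 _

theorem ker_shift {f : AddCircle (1 : ℝ) → ℝ} (ω : AddCircle (1 : ℝ)) :
    ∫ s, f (ω - s) ∂ker_H = ∫ s, f s ∂ker_H := integral_sub_left_eq_self f ker_H ω

theorem ker_V_le {f : AddCircle (1 : ℝ) → ℝ} (hf : Continuous f) (hf0 : ∀ ω, 0 ≤ f ω)
    (O : Set (AddCircle (1 : ℝ))) (ω : AddCircle (1 : ℝ)) : ker_V f O ω ≤ ∫ s, f s ∂ker_H := by
  rw [← ker_shift ω]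
  exact setIntegral_le_integral (ker_int (by fun_prop) _) (Eventually.of_forall fun s => hf0 _)

theorem ker_trig {f : AddCircle (1 : ℝ) → ℝ} (hf : Continuous f) {N : ℕ} {c : ℤ → ℂ}
    (h : ∀ ω, (f ω : ℂ) = tp N c ω) (O : Set (AddCircle (1 : ℝ))) :
    ∃ c' : ℤ → ℂ, ∀ ω, (ker_V f O ω : ℂ) = tp N c' ω := by
  refine ⟨fun j => c j * ∫ s in O, fourier (-j) s ∂ker_H, fun ω => ?_⟩
  have e0 : ((∫ s in O, f (ω - s) ∂ker_H : ℝ) : ℂ) = ∫ s in O, ((f (ω - s) : ℝ) : ℂ) ∂ker_H :=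
    integral_ofReal.symm
  rw [ker_V, e0]
  have e1 : ∀ s, ((f (ω - s) : ℝ) : ℂ) =
      ∑ j ∈ Icc (-(N : ℤ)) N, (c j * fourier j ω) * fourier (-j) s := by
    intro s
    rw [h, tp]
    refine Finset.sum_congr rfl fun j _ => ?_
    have e2 : (fourier j (ω - s) : ℂ) = fourier j ω * fourier (-j) s := by
      rw [fourier_apply, fourier_apply, fourier_apply, ← Circle.coe_mul, ← AddCircle.toCircle_add]
      congr 2
      rw [zsmul_sub, neg_zsmul, sub_eq_add_neg]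
    rw [e2]
    ring
  simp only [e1]
  rw [integral_finset_sum _ fun j _ => ker_intC (by fun_prop) _]
  refine Finset.sum_congr rfl fun j _ => ?_
  rw [integral_const_mul]
  ring

theorem ker_V_cont {f : AddCircle (1 : ℝ) → ℝ} (hf : Continuous f) {N : ℕ} {c : ℤ → ℂ}
    (h : ∀ ω, (f ω : ℂ) = tp N c ω) (O : Set (AddCircle (1 : ℝ))) : Continuous (ker_V f O) := by
  obtain ⟨c', hc'⟩ := ker_trig hf h O
  have e : ker_V f O = fun ω => (tp N c' ω).re := by
    funext ω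
    rw [← hc' ω]
    simp
  rw [e]
  unfold tp
  fun_prop

/-- the kernel estimate -/
theorem ker_est {f : AddCircle (1 : ℝ) → ℝ} (hf : Continuous f) (hf0 : ∀ ω, 0 ≤ f ω)
    (hf1 : ∫ ω, f ω ∂ker_H = 1) {B : ℝ}
    (hB : ∫ ω, f ω * ‖(fourier 1 ω : ℂ) - 1‖ ^ 2 ∂ker_H ≤ B) {O : Set (AddCircle (1 : ℝ))}
    (hO : MeasurableSet O) (ω : AddCircle (1 : ℝ)) (e A Y : ℝ) (hA : 0 ≤ A)
    (h : ∀ s ∈ O, e ≤ A * (1 + Y ^ 2 * ‖(fourier 1 (ω - s) : ℂ) - 1‖ ^ 2)) :
    ker_V f O ω * e ≤ A * (1 + Y ^ 2 * B) := by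
  have c1 : Continuous fun s => f (ω - s) * e := by fun_prop
  have c2 : Continuous fun s => f (ω - s) * (A * (1 + Y ^ 2 * ‖(fourier 1 (ω - s) : ℂ) - 1‖ ^ 2)) :=
    by fun_prop
  calc ker_V f O ω * e = ∫ s in O, f (ω - s) * e ∂ker_H := by
        rw [ker_V, integral_mul_const]
    _ ≤ ∫ s in O, f (ω - s) * (A * (1 + Y ^ 2 * ‖(fourier 1 (ω - s) : ℂ) - 1‖ ^ 2)) ∂ker_H := by
        refine setIntegral_mono_on (ker_int c1 _) (ker_int c2 _) hO fun s hs => ?_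
        exact mul_le_mul_of_nonneg_left (h s hs) (hf0 _)
    _ ≤ ∫ s, f (ω - s) * (A * (1 + Y ^ 2 * ‖(fourier 1 (ω - s) : ℂ) - 1‖ ^ 2)) ∂ker_H := by
        refine setIntegral_le_integral (ker_int c2 _) (Eventually.of_forall fun s => ?_)
        have := hf0 (ω - s)
        show 0 ≤ f (ω - s) * (A * (1 + Y ^ 2 * ‖(fourier 1 (ω - s) : ℂ) - 1‖ ^ 2))
        positivity
    _ = ∫ s, f s * (A * (1 + Y ^ 2 * ‖(fourier 1 s : ℂ) - 1‖ ^ 2)) ∂ker_H :=
        ker_shift (f := fun s => f s * (A * (1 + Y ^ 2 * ‖(fourier 1 s : ℂ) - 1‖ ^ 2))) ω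
    _ = A * (1 + Y ^ 2 * ∫ ω, f ω * ‖(fourier 1 ω : ℂ) - 1‖ ^ 2 ∂ker_H) := by
        have e1 : ∀ s, f s * (A * (1 + Y ^ 2 * ‖(fourier 1 s : ℂ) - 1‖ ^ 2)) =
            A * f s + A * Y ^ 2 * (f s * ‖(fourier 1 s : ℂ) - 1‖ ^ 2) := fun s => by ring
        simp only [e1]
        rw [integral_add (ker_int (by fun_prop) _) (ker_int (by fun_prop) _), integral_const_mul,
          integral_const_mul, hf1]
        ring
    _ ≤ A * (1 + Y ^ 2 * B) := by
        refine mul_le_mul_of_nonneg_left ?_ hA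
        have : 0 ≤ Y ^ 2 := sq_nonneg _
        nlinarith

/-- integral of the smoothed indicator function -/
theorem ker_V_integral {f : AddCircle (1 : ℝ) → ℝ} (hf : Continuous f)
    (hf1 : ∫ ω, f ω ∂ker_H = 1) {O : Set (AddCircle (1 : ℝ))} :
    ∫ ω, ker_V f O ω ∂ker_H = ker_H.real O := by
  have hint : Integrable (Function.uncurry fun (ω s : AddCircle (1 : ℝ)) => f (ω - s))
      (ker_H.prod (ker_H.restrict O)) := by
    have : Continuous (Function.uncurry fun (ω s : AddCircle (1 : ℝ)) => f (ω - s)) := by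
      unfold Function.uncurry
      fun_prop
    exact this.integrable_of_hasCompactSupport (HasCompactSupport.of_compactSpace _)
  unfold ker_V
  rw [integral_integral_swap hint]
  have e1 : ∀ s, ∫ ω, f (ω - s) ∂ker_H = 1 := fun s =>
    (integral_sub_right_eq_self f s).trans hf1
  simp only [e1]
  rw [integral_const, smul_eq_mul, mul_one]
  simp [Measure.real]

/-- distance from a closed set -/
theorem ker_dist {O : Set (AddCircle (1 : ℝ))} (hO : IsClosed O) {ω : AddCircle (1 : ℝ)}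
    (hω : ω ∉ O) : ∃ c : ℝ, 0 < c ∧ ∀ s ∈ O, c ≤ ‖(fourier 1 (ω - s) : ℂ) - 1‖ := by
  rcases O.eq_empty_or_nonempty with rfl | hne
  · exact ⟨1, one_pos, fun s hs => absurd hs (Set.notMem_empty s)⟩
  · have hc : ContinuousOn (fun s => ‖(fourier 1 (ω - s) : ℂ) - 1‖) O := by
      refine Continuous.continuousOn ?_
      fun_prop
    obtain ⟨s₀, hs₀, hmin⟩ := hO.isCompact.exists_isMinOn hne hc
    refine ⟨‖(fourier 1 (ω - s₀) : ℂ) - 1‖, ?_, fun s hs => hmin hs⟩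
    rw [norm_pos_iff, sub_ne_zero]
    intro h
    rw [fourier_one] at h
    have h1 : AddCircle.toCircle (ω - s₀) = AddCircle.toCircle (0 : AddCircle (1 : ℝ)) := by
      apply Subtype.ext
      rw [AddCircle.toCircle_zero]
      exact h
    have h2 := AddCircle.injective_toCircle (one_ne_zero) h1
    rw [sub_eq_zero] at h2
    exact hω (h2 ▸ hs₀)

/-! ### Convergence -/

/-- error on the complement -/
theorem ker_conv_out {J : ℕ → AddCircle (1 : ℝ) → ℝ} (hJc : ∀ n, Continuous (J n))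
    (hJ0 : ∀ n ω, 0 ≤ J n ω) (hJ1 : ∀ n, 1 ≤ n → ∫ ω, J n ω ∂ker_H = 1)
    (hJe : ∀ n : ℕ, 1 ≤ n → ∫ ω, J n ω * ‖(fourier 1 ω : ℂ) - 1‖ ^ 2 ∂ker_H ≤ 8 / (n : ℝ) ^ 2)
    {O : Set (AddCircle (1 : ℝ))} (hO : IsClosed O) {ω : AddCircle (1 : ℝ)} (hω : ω ∉ O) :
    Tendsto (fun n => ker_V (J n) O ω) atTop (𝓝 0) := by
  obtain ⟨c, hc, hcO⟩ := ker_dist hO hω
  have hlim : Tendsto (fun n : ℕ => (9 / c ^ 2) * (1 / (n : ℝ)) ^ 2) atTop (𝓝 0) := by
    have h1 : Tendsto (fun n : ℕ => 1 / (n : ℝ)) atTop (𝓝 0) := tendsto_one_div_atTop_nhds_zero_nat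
    have h2 := (h1.pow 2).const_mul (9 / c ^ 2)
    simpa using h2
  refine squeeze_zero' (Eventually.of_forall fun n => ker_V_nonneg (hJ0 n) O ω) ?_ hlim
  filter_upwards [eventually_ge_atTop 1] with n hn
  have hn0 : (0 : ℝ) < n := by exact_mod_cast hn
  have h1 := ker_est (hJc n) (hJ0 n) (hJ1 n hn) (hJe n hn) hO.measurableSet ω (c ^ 2)
    (1 / (n : ℝ) ^ 2) n (by positivity) fun s hs => by
      have h2 := hcO s hs
      have h3 : c ^ 2 ≤ ‖(fourier 1 (ω - s) : ℂ) - 1‖ ^ 2 := by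
        exact pow_le_pow_left₀ hc.le h2 2
      have h4 : 1 / (n : ℝ) ^ 2 * (1 + (n : ℝ) ^ 2 * ‖(fourier 1 (ω - s) : ℂ) - 1‖ ^ 2) =
          1 / (n : ℝ) ^ 2 + ‖(fourier 1 (ω - s) : ℂ) - 1‖ ^ 2 := by
        field_simp
      rw [h4]
      have h5 : 0 ≤ 1 / (n : ℝ) ^ 2 := by positivity
      linarith
  have h2 : 1 / (n : ℝ) ^ 2 * (1 + (n : ℝ) ^ 2 * (8 / (n : ℝ) ^ 2)) = 9 * (1 / (n : ℝ)) ^ 2 := by
    field_simp
    norm_num
  rw [h2] at h1
  have hc2 : 0 < c ^ 2 := by positivity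
  have h3 : ker_V (J n) O ω = ker_V (J n) O ω * c ^ 2 / c ^ 2 := by
    field_simp
  rw [h3, div_le_iff₀ hc2]
  calc ker_V (J n) O ω * c ^ 2 ≤ 9 * (1 / (n : ℝ)) ^ 2 := h1
    _ = 9 / c ^ 2 * (1 / (n : ℝ)) ^ 2 * c ^ 2 := by
        field_simp

/-- dominated convergence for the complement -/
theorem ker_conv_int {J : ℕ → AddCircle (1 : ℝ) → ℝ} (hJc : ∀ n, Continuous (J n))
    (hJ0 : ∀ n ω, 0 ≤ J n ω) (hJ1 : ∀ n, 1 ≤ n → ∫ ω, J n ω ∂ker_H = 1)
    (hJt : ∀ n, ∃ c : ℤ → ℂ, ∀ ω, (J n ω : ℂ) = tp (2 * n) c ω)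
    (hJe : ∀ n : ℕ, 1 ≤ n → ∫ ω, J n ω * ‖(fourier 1 ω : ℂ) - 1‖ ^ 2 ∂ker_H ≤ 8 / (n : ℝ) ^ 2)
    {O : Set (AddCircle (1 : ℝ))} (hO : IsClosed O) (μ : Measure (AddCircle (1 : ℝ)))
    [IsFiniteMeasure μ] :
    Tendsto (fun n => ∫ ω in Oᶜ, ker_V (J n) O ω ∂μ) atTop (𝓝 0) := by
  have h0 : (0 : ℝ) = ∫ ω in Oᶜ, (0 : ℝ) ∂μ := by simp
  rw [h0]
  refine tendsto_integral_filter_of_dominated_convergence (fun _ => (1 : ℝ)) ?_ ?_ ?_ ?_
  · refine Eventually.of_forall fun n => ?_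
    obtain ⟨c, hc⟩ := hJt n
    exact (ker_V_cont (hJc n) hc O).aestronglyMeasurable
  · filter_upwards [eventually_ge_atTop 1] with n hn
    refine Eventually.of_forall fun ω => ?_
    rw [Real.norm_of_nonneg (ker_V_nonneg (hJ0 n) O ω), ← hJ1 n hn]
    exact ker_V_le (hJc n) (hJ0 n) O ω
  · exact integrable_const _
  · rw [ae_restrict_iff' hO.measurableSet.compl]
    exact Eventually.of_forall fun ω hω => ker_conv_out hJc hJ0 hJ1 hJe hO hω

/-- convergence in mean to the indicator function -/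
theorem ker_conv_ind {J : ℕ → AddCircle (1 : ℝ) → ℝ} (hJc : ∀ n, Continuous (J n))
    (hJ0 : ∀ n ω, 0 ≤ J n ω) (hJ1 : ∀ n, 1 ≤ n → ∫ ω, J n ω ∂ker_H = 1)
    (hJt : ∀ n, ∃ c : ℤ → ℂ, ∀ ω, (J n ω : ℂ) = tp (2 * n) c ω)
    (hJe : ∀ n : ℕ, 1 ≤ n → ∫ ω, J n ω * ‖(fourier 1 ω : ℂ) - 1‖ ^ 2 ∂ker_H ≤ 8 / (n : ℝ) ^ 2)
    {O : Set (AddCircle (1 : ℝ))} (hO : IsClosed O) :
    Tendsto (fun n => ∫ ω, |ker_V (J n) O ω - O.indicator (fun _ => (1 : ℝ)) ω| ∂ker_H) atTop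
      (𝓝 0) := by
  have h1 := (ker_conv_int hJc hJ0 hJ1 hJt hJe hO ker_H).const_mul 2
  rw [mul_zero] at h1
  refine h1.congr' ?_
  filter_upwards [eventually_ge_atTop 1] with n hn
  obtain ⟨c, hc⟩ := hJt n
  have hVc := ker_V_cont (hJc n) hc O
  have hVi : Integrable (ker_V (J n) O) ker_H := ker_int hVc _
  have hV1 : ∀ ω, ker_V (J n) O ω ≤ 1 := fun ω => by
    rw [← hJ1 n hn]
    exact ker_V_le (hJc n) (hJ0 n) O ω
  have e1 : ∀ ω, |ker_V (J n) O ω - O.indicator (fun _ => (1 : ℝ)) ω| =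
      2 * Oᶜ.indicator (ker_V (J n) O) ω + O.indicator (fun _ => (1 : ℝ)) ω - ker_V (J n) O ω := by
    intro ω
    by_cases hω : ω ∈ O
    · have hω' : ω ∉ Oᶜ := fun h => h hω
      rw [Set.indicator_of_mem hω, Set.indicator_of_notMem hω', abs_of_nonpos (by
        have := hV1 ω
        linarith)]
      ring
    · have hω' : ω ∈ Oᶜ := hω
      rw [Set.indicator_of_notMem hω, Set.indicator_of_mem hω', sub_zero,
        abs_of_nonneg (ker_V_nonneg (hJ0 n) O ω)]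
      ring
  simp only [e1]
  have i1 : Integrable (fun ω => 2 * Oᶜ.indicator (ker_V (J n) O) ω) ker_H :=
    (hVi.indicator hO.measurableSet.compl).const_mul 2
  have i2 : Integrable (fun ω => O.indicator (fun _ => (1 : ℝ)) ω) ker_H :=
    (integrable_const (1 : ℝ)).indicator hO.measurableSet
  have i12 : Integrable (fun ω => 2 * Oᶜ.indicator (ker_V (J n) O) ω +
      O.indicator (fun _ => (1 : ℝ)) ω) ker_H := i1.add i2
  rw [integral_sub i12 hVi, integral_add i1 i2, integral_const_mul,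
    integral_indicator hO.measurableSet.compl, integral_indicator hO.measurableSet,
    ker_V_integral (hJc n) (hJ1 n hn)]
  simp [Measure.real]

/-- truncation -/
theorem ker_trunc {ρ : AddCircle (1 : ℝ) → ℝ} (hm : Measurable ρ) (h0 : ∀ ω, 0 ≤ ρ ω)
    (hi : Integrable ρ ker_H) {ε : ℝ} (hε : 0 < ε) :
    ∃ M : ℕ, ∫ ω in {ω | (M : ℝ) < ρ ω}, ρ ω ∂ker_H < ε := by
  have h1 : Tendsto (fun M : ℕ => ∫ ω, {ω | (M : ℝ) < ρ ω}.indicator ρ ω ∂ker_H) atTop
      (𝓝 (∫ ω, (0 : ℝ) ∂ker_H)) := by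
    refine tendsto_integral_of_dominated_convergence ρ (fun M => ?_) hi (fun M => ?_) ?_
    · exact (hm.indicator (measurableSet_lt measurable_const hm)).aestronglyMeasurable
    · refine Eventually.of_forall fun ω => ?_
      rw [Real.norm_of_nonneg (Set.indicator_nonneg (fun x _ => h0 x) ω)]
      exact Set.indicator_le_self' (fun x _ => h0 x) ω
    · refine Eventually.of_forall fun ω => ?_
      obtain ⟨M₀, hM₀⟩ := exists_nat_ge (ρ ω)
      refine tendsto_const_nhds.congr' ?_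
      filter_upwards [eventually_ge_atTop M₀] with M hM
      have h2 : (M₀ : ℝ) ≤ M := by exact_mod_cast hM
      rw [Set.indicator_of_notMem]
      intro h3
      have h4 : (M : ℝ) < ρ ω := h3
      linarith
  rw [integral_zero] at h1
  obtain ⟨M, hM⟩ := (h1.eventually (gt_mem_nhds hε)).exists
  refine ⟨M, ?_⟩
  rw [← integral_indicator (measurableSet_lt measurable_const hm)]
  exact hM

theorem ker_norm (N : ℤ) (ω : AddCircle (1 : ℝ)) : ‖(fourier N ω : ℂ)‖ = 1 := by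
  rw [fourier_apply]
  exact Circle.norm_coe _

/-- the final estimate -/
theorem ker_final {O : Set (AddCircle (1 : ℝ))} (hO : IsClosed O) {ρ : AddCircle (1 : ℝ) → ℝ}
    (hρm : Measurable ρ) (hρ0 : ∀ ω, 0 ≤ ρ ω) (hρi : Integrable ρ ker_H)
    {νs : Measure (AddCircle (1 : ℝ))} (hfin : IsFiniteMeasure νs) (hνsO : νs O = 0)
    {V : AddCircle (1 : ℝ) → ℝ} (hV : Continuous V) (hV0 : ∀ ω, 0 ≤ V ω) (hV1 : ∀ ω, V ω ≤ 1)
    {ε : ℝ} {M : ℕ} (hM : ∫ ω in {ω | (M : ℝ) < ρ ω}, ρ ω ∂ker_H < ε / 3)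
    (h1 : ∫ ω in Oᶜ, V ω ∂νs < ε / 3)
    (h2 : M * ∫ ω, |V ω - O.indicator (fun _ => (1 : ℝ)) ω| ∂ker_H < ε / 3) (N : ℤ) :
    ‖(∫ ω, (V ω : ℂ) * fourier N ω ∂(νs + ker_H.withDensity fun ω => ENNReal.ofReal (ρ ω))) -
      ∫ ω, ((O.indicator ρ ω : ℝ) : ℂ) * fourier N ω ∂ker_H‖ ≤ ε := by
  have hwd : IsFiniteMeasure (ker_H.withDensity fun ω => ENNReal.ofReal (ρ ω)) :=
    isFiniteMeasure_withDensity_ofReal hρi.2
  have hVf : Continuous fun ω => (V ω : ℂ) * fourier N ω := by fun_prop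
  rw [integral_add_measure (ker_intC hVf _) (ker_intC hVf _),
    integral_withDensity_eq_integral_toReal_smul (by fun_prop)
      (Eventually.of_forall fun ω => ENNReal.ofReal_lt_top)]
  have i1 : Integrable (fun ω => (ENNReal.ofReal (ρ ω)).toReal • ((V ω : ℂ) * fourier N ω))
      ker_H := by
    have e : ∀ ω, (ENNReal.ofReal (ρ ω)).toReal = ρ ω := fun ω => ENNReal.toReal_ofReal (hρ0 ω)
    simp only [e]
    refine hρi.smul_of_top_left ?_
    exact (memLp_top_of_bound hVf.aestronglyMeasurable 1 (Eventually.of_forall fun ω => by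
      rw [norm_mul, ker_norm, mul_one, Complex.norm_real, Real.norm_of_nonneg (hV0 ω)]
      exact hV1 ω))
  have i2 : Integrable (fun ω => ((O.indicator ρ ω : ℝ) : ℂ) * fourier N ω) ker_H := by
    have i3 : Integrable (fun ω => ((O.indicator ρ ω : ℝ) : ℂ)) ker_H :=
      (hρi.indicator hO.measurableSet).ofReal
    refine i3.mul_of_top_left ?_
    have hf : Continuous fun ω : AddCircle (1 : ℝ) => (fourier N ω : ℂ) := by fun_prop
    exact (memLp_top_of_bound hf.aestronglyMeasurable 1 (Eventually.of_forall fun ω => by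
      rw [ker_norm]))
  rw [add_sub_assoc, ← integral_sub i1 i2]
  have hVint : Integrable V νs := ker_int hV _
  have hdi : Integrable (fun ω => |V ω - O.indicator (fun _ => (1 : ℝ)) ω|) ker_H :=
    ((ker_int hV _).sub ((integrable_const (1 : ℝ)).indicator hO.measurableSet)).abs
  have hMm : MeasurableSet {ω | (M : ℝ) < ρ ω} := measurableSet_lt measurable_const hρm
  have b1 : ‖∫ ω, (V ω : ℂ) * fourier N ω ∂νs‖ < ε / 3 := by
    refine lt_of_le_of_lt (norm_integral_le_integral_norm _) (lt_of_le_of_lt (le_of_eq ?_) h1)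
    have e1 : ∀ ω, ‖(V ω : ℂ) * fourier N ω‖ = V ω := fun ω => by
      rw [norm_mul, ker_norm, mul_one, Complex.norm_real, Real.norm_of_nonneg (hV0 ω)]
    simp only [e1]
    have e2 : ∀ᵐ ω ∂νs, ω ∈ Oᶜ := by
      rw [ae_iff]
      have e3 : {ω | ¬ ω ∈ Oᶜ} = O := by
        ext ω
        simp
      rw [e3]
      exact hνsO
    rw [Measure.restrict_eq_self_of_ae_mem e2]
  have b2 : ‖∫ ω, ((ENNReal.ofReal (ρ ω)).toReal • ((V ω : ℂ) * fourier N ω) -
      ((O.indicator ρ ω : ℝ) : ℂ) * fourier N ω) ∂ker_H‖ ≤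
      M * ∫ ω, |V ω - O.indicator (fun _ => (1 : ℝ)) ω| ∂ker_H +
        ∫ ω in {ω | (M : ℝ) < ρ ω}, ρ ω ∂ker_H := by
    refine le_trans (norm_integral_le_integral_norm _) ?_
    rw [← integral_const_mul, ← integral_indicator hMm,
      ← integral_add (hdi.const_mul _) (hρi.indicator hMm)]
    refine integral_mono (i1.sub i2).norm ((hdi.const_mul _).add (hρi.indicator hMm)) fun ω => ?_
    have e1 : (ENNReal.ofReal (ρ ω)).toReal • ((V ω : ℂ) * fourier N ω) -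
        ((O.indicator ρ ω : ℝ) : ℂ) * fourier N ω =
        ((ρ ω * (V ω - O.indicator (fun _ => (1 : ℝ)) ω) : ℝ) : ℂ) * fourier N ω := by
      rw [ENNReal.toReal_ofReal (hρ0 ω), Complex.real_smul]
      by_cases hω : ω ∈ O
      · rw [Set.indicator_of_mem hω, Set.indicator_of_mem hω]
        push_cast
        ring
      · rw [Set.indicator_of_notMem hω, Set.indicator_of_notMem hω]
        push_cast
        ring
    show ‖(ENNReal.ofReal (ρ ω)).toReal • ((V ω : ℂ) * fourier N ω) -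
        ((O.indicator ρ ω : ℝ) : ℂ) * fourier N ω‖ ≤
      M * |V ω - O.indicator (fun _ => (1 : ℝ)) ω| + {ω | (M : ℝ) < ρ ω}.indicator ρ ω
    rw [e1, norm_mul, ker_norm, mul_one, Complex.norm_real, Real.norm_eq_abs, abs_mul,
      abs_of_nonneg (hρ0 ω)]
    have e2 : 0 ≤ |V ω - O.indicator (fun _ => (1 : ℝ)) ω| := abs_nonneg _
    have e3 : |V ω - O.indicator (fun _ => (1 : ℝ)) ω| ≤ 1 := by
      have := hV0 ω
      have := hV1 ω
      by_cases hω : ω ∈ O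
      · rw [Set.indicator_of_mem hω, abs_le]
        constructor <;> linarith
      · rw [Set.indicator_of_notMem hω, abs_le]
        constructor <;> linarith
    by_cases hMω : (M : ℝ) < ρ ω
    · have hmem : ω ∈ {ω | (M : ℝ) < ρ ω} := hMω
      rw [Set.indicator_of_mem hmem]
      have := hρ0 ω
      have hM0 : (0 : ℝ) ≤ M := by positivity
      nlinarith
    · have hmem : ω ∉ {ω | (M : ℝ) < ρ ω} := hMω
      rw [Set.indicator_of_notMem hmem, add_zero]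
      exact mul_le_mul_of_nonneg_right (not_lt.1 hMω) e2
  refine le_trans (norm_add_le _ _) ?_
  linarith

theorem st_KER (h1 : ST_SET) (h2 : ST_JAC) : ST_KER := by
  intro ν hν hsing
  obtain ⟨O, C, ρ, νs, hO, hmax, hfin, hνsO, hρm, hρ0, hρi, hdec, hpos⟩ := h1 ν hν hsing
  obtain ⟨J, hJc, hJ0, hJ1, hJt, hJe⟩ := h2
  have hW : ∀ n, 1 ≤ n → ∀ ω, (if n = 0 then 0 else ker_V (J n) O ω) = ker_V (J n) O ω :=
    fun n hn ω => if_neg (by omega)
  refine ⟨O, C, O.indicator ρ, fun n ω => if n = 0 then 0 else ker_V (J n) O ω, hmax,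
    hρi.indicator hO.measurableSet, ?_, ?_, ?_, ?_, ?_⟩
  · rw [integral_indicator hO.measurableSet]
    exact hpos
  · intro n
    by_cases hn : n = 0
    · exact ⟨fun _ => 0, fun ω => by simp [hn, tp]⟩
    · obtain ⟨c, hc⟩ := hJt n
      obtain ⟨c', hc'⟩ := ker_trig (hJc n) hc O
      exact ⟨c', fun ω => by rw [if_neg hn]; exact hc' ω⟩
  · intro n ω
    show 0 ≤ (if n = 0 then (0 : ℝ) else ker_V (J n) O ω) ∧
      (if n = 0 then (0 : ℝ) else ker_V (J n) O ω) ≤ 1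
    by_cases hn : n = 0
    · rw [if_pos hn]
      exact ⟨le_rfl, zero_le_one⟩
    · rw [if_neg hn]
      refine ⟨ker_V_nonneg (hJ0 n) O ω, ?_⟩
      rw [← hJ1 n (by omega)]
      exact ker_V_le (hJc n) (hJ0 n) O ω
  · intro n hn ω e A Y hA h
    show (if n = 0 then (0 : ℝ) else ker_V (J n) O ω) * e ≤ _
    rw [hW n hn]
    have h3 := ker_est (hJc n) (hJ0 n) (hJ1 n hn) (hJe n hn) hO.measurableSet ω e A Y hA h
    have h4 : Y ^ 2 * (8 / (n : ℝ) ^ 2) = 8 * Y ^ 2 / (n : ℝ) ^ 2 := by ring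
    rw [h4] at h3
    exact h3
  · intro ε hε
    obtain ⟨M, hM⟩ := ker_trunc hρm hρ0 hρi (ε := ε / 3) (by positivity)
    have t1 := ker_conv_int hJc hJ0 hJ1 hJt hJe hO νs
    have t2 := (ker_conv_ind hJc hJ0 hJ1 hJt hJe hO).const_mul (M : ℝ)
    rw [mul_zero] at t2
    have hε3 : 0 < ε / 3 := by positivity
    obtain ⟨n₀, hn₀⟩ := eventually_atTop.1 ((t1.eventually (gt_mem_nhds hε3)).and
      (t2.eventually (gt_mem_nhds hε3)))
    refine ⟨max n₀ 1, fun n hn N => ?_⟩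
    have hn1 : 1 ≤ n := le_trans (le_max_right _ _) hn
    obtain ⟨k1, k2⟩ := hn₀ n (le_trans (le_max_left _ _) hn)
    obtain ⟨c, hc⟩ := hJt n
    have hV1 : ∀ ω, ker_V (J n) O ω ≤ 1 := fun ω => by
      rw [← hJ1 n hn1]
      exact ker_V_le (hJc n) (hJ0 n) O ω
    have h3 := ker_final hO hρm hρ0 hρi hfin hνsO (ker_V_cont (hJc n) hc O)
      (ker_V_nonneg (hJ0 n) O) hV1 hM k1 k2 N
    simp only [hW n hn1]
    rw [hdec]
    exact h3

end Pool.Agent.Helper97.FS
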