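import Pool.Agent.Helper5.FS.Stmts

set_option autoImplicit false

open Finset

namespace Pool.Agent.Helper5.FS

/-- main theorem: coarsening hypothesis for one `m`, and the explicit form -/
def ST_TOP : Prop := ∀ (n : ℕ) (E : Finset (Finset (Fin n))) (b : ℕ → ℕ), 1 ≤ n →
  (∀ m : ℕ, b m = Set.ncard {P : Finset (Finset (Fin n)) |
    P.card = m ∧
    (∀ B ∈ P, B.Nonempty) ∧
    (∀ B ∈ P, ∀ C ∈ P, B ≠ C → Disjoint B C) ∧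
    (∀ v : Fin n, ∃ B ∈ P, v ∈ B) ∧
    (∀ B ∈ P, ∀ e ∈ E, ¬ e ⊆ B)}) →
  (∀ q m : ℕ, 1 ≤ q → 5 * (n : ℝ) ≤ m * Real.log ((n : ℝ) / q) →
    (∀ P : Finset (Finset (Fin n)), Pt P → Ind E P → P.card = m →
      ∃ Q, Pt Q ∧ Ind E Q ∧ Rf P Q ∧ Q.card ≤ q) → b m ≤ b (m - 1)) ∧
  ∀ T m : ℕ, 1 ≤ T → 5 * (n : ℝ) ≤ m * Real.log ((n : ℝ) /
    (1 + Real.sqrt (2 * (E.filter (fun e => e.card ≤ T)).card) + 2 * n / T)) →
    b m ≤ b (m - 1)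

theorem st_TOP (h1 : ST_CRS) (h2 : ST_PSI) (h3 : ST_PAR) (h4 : ST_NUM) : ST_TOP := by
  intro n E b hn hb
  have key : ∀ q m : ℕ, 1 ≤ q → 5 * (n : ℝ) ≤ m * Real.log ((n : ℝ) / q) →
      (∀ P : Finset (Finset (Fin n)), Pt P → Ind E P → P.card = m →
        ∃ Q, Pt Q ∧ Ind E Q ∧ Rf P Q ∧ Q.card ≤ q) → b m ≤ b (m - 1) := by
    intro q m hq hm hP
    obtain ⟨s, hs1, hs2⟩ := h4 n m q hq hn hm
    exact h3 n m q s E b hb hq hs1 hs2 hP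
  refine ⟨key, fun T m hT hm => ?_⟩
  have hnR : (1:ℝ) ≤ n := by exact_mod_cast hn
  have hTR : (1:ℝ) ≤ T := by exact_mod_cast hT
  set x : ℝ := 1 + Real.sqrt (2 * (E.filter (fun e => e.card ≤ T)).card) + 2 * n / T with hx
  have hx1 : 1 ≤ x := by
    have a1 : 0 ≤ Real.sqrt (2 * (E.filter (fun e => e.card ≤ T)).card) := Real.sqrt_nonneg _
    have a2 : 0 ≤ 2 * (n:ℝ) / T := by positivity
    rw [hx]; linarith
  have hq1 : 1 ≤ ⌊x⌋₊ := by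
    rw [Nat.one_le_floor_iff]; exact hx1
  have hq1R : (1:ℝ) ≤ (⌊x⌋₊ : ℝ) := by exact_mod_cast hq1
  have hqx : ((⌊x⌋₊ : ℕ) : ℝ) ≤ x := Nat.floor_le (by linarith)
  refine key ⌊x⌋₊ m hq1 ?_ ?_
  · refine hm.trans (mul_le_mul_of_nonneg_left ?_ (Nat.cast_nonneg m))
    refine Real.log_le_log (by positivity) ?_
    exact div_le_div_of_nonneg_left (by linarith) (by linarith) hqx
  · intro P hP1 hP2 _
    obtain ⟨Q, hQ1, hQ2, hQ3, hQ4⟩ := h1 n E P hP1 hP2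
    exact ⟨Q, hQ1, hQ2, hQ3, Nat.le_floor (h2 n T E Q hT hQ1 hQ2 hQ4)⟩

end Pool.Agent.Helper5.FS
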